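import Mathlib
import Pool.Agent.J6H32.RP.All

/-!
# The Fontaine–Mazur conjecture over `ℚ` at regular primes is a local question at `p`

Let `p` be a regular prime number and `q` a prime number: `q = ± 3 mod 8` if `p = 2`, and `q` is a
primitive root modulo `p ^ 2` if `p` is odd (for example `p = 2` and `q = 3, 5, 11`, or `p = 3` and
`q = 2, 5, 11`, or `p = 5` and `q = 2, 3, 13`). Consider the continuous representations `V` of the
absolute Galois group of `ℚ`, over a finite extension of `ℚ_p` or over the fraction field of a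
Noetherian local domain with finite residue field of characteristic `p`, which are unramified outside
`{p, q}` and residually unipotent on the absolute Galois group of `ℚ(ζ_p)`: in dimension two the
semisimplification of the reduction is `ω ^ a ⊕ ω ^ b`, `ω` the cyclotomic character modulo `p`.
There is no condition on the parity, the determinant, the dimension, the ramification at `q` or the
restriction to the decomposition group `D` at `p`.

Theorem. The restriction to `D` is a fully faithful functor on these representations, and the subspaces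
which are stable under `D` are stable under the Galois group of `ℚ`. Moreover, if `V` is strongly
irreducible (only the scalars commute with the action of an open subgroup) and if `V` and `V'` are
isomorphic on a subgroup of finite index of `D`, then `V` is isomorphic to the twist of `V'` by a
character of finite order of the Galois group of `ℚ`.

So a `V` in this class which is not dihedral comes from a cusp form `f` with `V_f` in the class (up to
a twist of finite order) if and only if it does so on some subgroup of finite index of `D`: for this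
class the conjecture is equivalent to a statement on the restrictions to `D`, for example it is enough
to show that the potentially semi-stable representations of `D` with distinct Hodge–Tate weights which
extend to the class are restrictions of representations of cusp forms in the class.
-/

set_option autoImplicit false

namespace Pool.Agent.Results.MP_b583a4_nt.LocalRigidity

open Matrix IsLocalRing

/-- An algebraic closure of `ℚ`. -/
abbrev QBar : Type := AlgebraicClosure ℚ

/-- The absolute Galois group of `ℚ`, with its Krull topology. -/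
abbrev AbsGal : Type := QBar ≃ₐ[ℚ] QBar

/-- The decomposition group of the prime of `ℚ̄` above `l` given by the embedding `ι` of `ℚ̄`. -/
def Dec {l : ℕ} [Fact l.Prime] (ι : QBar →ₐ[ℚ] PadicAlgCl l) : Set AbsGal :=
  {σ | ∃ τ : PadicAlgCl l ≃ₐ[ℚ_[l]] PadicAlgCl l, ∀ x, τ (ι x) = ι (σ x)}

/-- Its inertia group: the automorphisms which are trivial on the residue field. -/
def Inr {l : ℕ} [Fact l.Prime] (ι : QBar →ₐ[ℚ] PadicAlgCl l) : Set AbsGal :=
  {σ | ∃ τ : PadicAlgCl l ≃ₐ[ℚ_[l]] PadicAlgCl l, (∀ x, τ (ι x) = ι (σ x)) ∧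
    ∀ z : PadicAlgCl l, ‖z‖ ≤ 1 → ‖τ z - z‖ < 1}

/-- `p` is a regular prime number, and `q` is `± 3 mod 8` if `p = 2` and a primitive root modulo
`p ^ 2` if `p` is odd. -/
def GoodPair (p q : ℕ) [Fact p.Prime] : Prop :=
  q.Prime ∧ ((p = 2 ∧ (q % 8 = 3 ∨ q % 8 = 5)) ∨
    (2 < p ∧ (NumberField.classNumber (CyclotomicField p ℚ)).Coprime p ∧
      orderOf (q : ZMod (p ^ 2)) = p * (p - 1)))

/-- The representation `ρ` is continuous, residually unipotent on the absolute Galois group of
`ℚ(ζ_p)`, and unramified outside `p` and `q`. -/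
structure InClass (p q : ℕ) {A : Type} [CommRing A] [IsLocalRing A] [TopologicalSpace A] {n : ℕ}
    (ρ : AbsGal →* GL (Fin n) A) : Prop where
  cont : ∀ i j, Continuous fun σ => (ρ σ : Matrix (Fin n) (Fin n) A) i j
  unipotent : ∀ σ : AbsGal, (∀ z : QBar, z ^ p = 1 → σ z = z) → ∃ m : ℕ, ∀ i j,
    (((ρ σ : Matrix (Fin n) (Fin n) A) - 1) ^ m) i j ∈ maximalIdeal A
  unramified : ∀ (l : ℕ) [Fact l.Prime] (ι : QBar →ₐ[ℚ] PadicAlgCl l), l ≠ p → l ≠ q →
    ∀ σ ∈ (Inr ι : Set AbsGal), ρ σ = 1

/-- The matrix of `σ` on `V = F ^ n`. -/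
noncomputable def mat {A : Type} [CommRing A] (F : Type) [Field F] [Algebra A F] {n : ℕ}
    (ρ : AbsGal →* GL (Fin n) A) (σ : AbsGal) : Matrix (Fin n) (Fin n) F :=
  (ρ σ : Matrix (Fin n) (Fin n) A).map (algebraMap A F)

/-- Only the scalars commute with the action of an open subgroup. -/
def StronglyIrreducible {A : Type} [CommRing A] (F : Type) [Field F] [Algebra A F] {n : ℕ}
    (ρ : AbsGal →* GL (Fin n) A) : Prop :=
  ∀ U : Subgroup AbsGal, IsOpen (U : Set AbsGal) → ∀ X : Matrix (Fin n) (Fin n) F,
    (∀ σ ∈ U, X * mat F ρ σ = mat F ρ σ * X) → ∃ c : F, X = c • 1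

/-- The linear map `T` from `V` to `V'` commutes with the action of the elements of `D`. -/
def Commutes {A : Type} [CommRing A] (F : Type) [Field F] [Algebra A F] {n n' : ℕ}
    (ρ : AbsGal →* GL (Fin n) A) (ρ' : AbsGal →* GL (Fin n') A) (T : Matrix (Fin n') (Fin n) F)
    (D : Set AbsGal) : Prop :=
  ∀ δ ∈ D, T * mat F ρ δ = mat F ρ' δ * T

/-- `V` and `V'` are potentially isomorphic on `D`: they are isomorphic on a subgroup `D'`, finitely
many left cosets of which cover `D`. -/
def PotentiallyIsomorphicOn {A : Type} [CommRing A] (F : Type) [Field F] [Algebra A F] {n : ℕ}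
    (ρ ρ' : AbsGal →* GL (Fin n) A) (D : Set AbsGal) : Prop :=
  ∃ (D' : Subgroup AbsGal) (R : Set AbsGal) (T : Matrix (Fin n) (Fin n) F), R.Finite ∧
    (∀ δ ∈ D, ∃ r ∈ R, r⁻¹ * δ ∈ D') ∧ IsUnit T ∧ Commutes F ρ ρ' T (D' : Set AbsGal)

/-- `V` is isomorphic to the twist of `V'` by a character with open kernel of the Galois group. -/
def FiniteTwist {A : Type} [CommRing A] (F : Type) [Field F] [Algebra A F] {n : ℕ}
    (ρ ρ' : AbsGal →* GL (Fin n) A) : Prop :=
  ∃ (T : Matrix (Fin n) (Fin n) F) (χ : AbsGal →* Fˣ), IsUnit T ∧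
    IsOpen (χ.ker : Set AbsGal) ∧ ∀ σ, T * mat F ρ σ = (χ σ : F) • (mat F ρ' σ * T)

/-- **Representations unramified outside a regular prime `p` and a suitable prime `q` are determined
by their restrictions to a decomposition group `D` at `p`.** -/
theorem result (p : ℕ) [Fact p.Prime] (q : ℕ) (hpq : GoodPair p q)
    (A : Type) [CommRing A] [IsLocalRing A] [IsNoetherianRing A] [TopologicalSpace A]
    (hA : IsAdic (maximalIdeal A)) (hfin : Finite (ResidueField A)) (hpA : (p : A) ∈ maximalIdeal A)
    (F : Type) [Field F] [Algebra A F] [IsFractionRing A F] (ι : QBar →ₐ[ℚ] PadicAlgCl p)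
    (n : ℕ) (ρ : AbsGal →* GL (Fin n) A) (hρ : InClass p q ρ) :
    -- stable subspaces
    (∀ W : Submodule F (Fin n → F), (∀ δ ∈ Dec ι, ∀ w ∈ W, mat F ρ δ *ᵥ w ∈ W) →
      ∀ σ, ∀ w ∈ W, mat F ρ σ *ᵥ w ∈ W) ∧
    -- homomorphisms
    (∀ (n' : ℕ) (ρ' : AbsGal →* GL (Fin n') A), InClass p q ρ' →
      ∀ T : Matrix (Fin n') (Fin n) F, Commutes F ρ ρ' T (Dec ι) → Commutes F ρ ρ' T Set.univ) ∧
    -- potential isomorphisms
    (StronglyIrreducible F ρ → ∀ ρ' : AbsGal →* GL (Fin n) A, InClass p q ρ' →
      PotentiallyIsomorphicOn F ρ ρ' (Dec ι) → FiniteTwist F ρ ρ') := by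
  have hc : ∀ {k : ℕ} {ρ : AbsGal →* GL (Fin k) A}, InClass p q ρ →
      Pool.Agent.J6H32.RP.Cls p q k ρ := fun {k ρ} h =>
    ⟨h.cont, h.unipotent, fun l _ ι h1 h2 σ τ h3 h4 => h.unramified l ι h1 h2 σ ⟨τ, h3, h4⟩⟩
  refine ⟨fun W hW σ => ?_, fun n' ρ' hρ' T hT σ _ => ?_, fun hs ρ' hρ' h => ?_⟩
  · exact Pool.Agent.J6H32.RP.subAll hpq hA hfin hpA (hc hρ) ι (fun δ hδ => hW δ hδ) σ
  · exact Pool.Agent.J6H32.RP.homAll hpq hA hfin hpA (hc hρ) (hc hρ') ι (fun δ hδ => hT δ hδ) σ
  · obtain ⟨D', R, T, h1, h2, h3, h4⟩ := h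
    obtain ⟨χ, h5, h6⟩ := Pool.Agent.J6H32.RP.rigAll hpq hA hfin hpA (hc hρ) (hc hρ') ι h1 h2 h3
      (fun δ hδ => h4 δ hδ) hs
    exact ⟨T, χ, h3, h5, h6⟩

end Pool.Agent.Results.MP_b583a4_nt.LocalRigidity
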