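import Mathlib
import Pool.Agent.J6H32.RP.Dens

/-!
# The two-dimensional Fontaine–Mazur conjecture over `ℚ` for regular primes: representations which
# are potentially reducible at `p`

Let `p` be a regular odd prime number and `q` a prime number which is a primitive root modulo `p ^ 2`
(for example `p = 3` and `q = 2, 5, 11`, or `p = 5` and `q = 2, 3, 13`). Let `V` be a continuous
irreducible two-dimensional representation of the absolute Galois group of `ℚ`, over a finite
extension `E` of `ℚ_p` (or the fraction field of a Noetherian local domain with finite residue field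
of characteristic `p`), which is unramified outside `{p, q}` and whose reduction has the
semisimplification `ω ^ a ⊕ ω ^ b` with `ω` the cyclotomic character modulo `p`. There is no condition
on the parity of `V`, on its determinant, or on the ramification at `q`.

Theorem: let `D` be a decomposition group at `p`.

* A line of `V` which is stable under `D` is stable under the absolute Galois group of `ℚ`: so `V` is
irreducible on `D`. In particular no such `V` is ordinary at `p`.
* If `V` is potentially reducible on `D`, then `V` is induced from a character of the absolute Galois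
group of a quadratic field, or the projective image of `V` is finite.

If `V` is moreover potentially semi-stable at `p` with distinct Hodge–Tate weights, then the
projective image is not finite, and in the second case `V` is a twist of the representation of a cusp
form with complex multiplication; so the conjecture is true for all these `V` which are potentially
reducible at `p`, even ones included. (This deduction from classical results is not part of the formal
proof.)

The proof: by Kummer's lemma and the condition on `q`, the decomposition group at `p` has a dense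
image in every quotient of `G_ℚ` which is unramified outside `{p, q}` and is an extension of
`Gal(ℚ(ζ_p)/ℚ)` by a `p`-group.
-/

set_option autoImplicit false

namespace Pool.Agent.Results.MP_b583a4_nt.RegularPrimes

open Matrix IsLocalRing

/-- An algebraic closure of `ℚ`. -/
abbrev QBar : Type := AlgebraicClosure ℚ

/-- The absolute Galois group of `ℚ`, with its Krull topology. -/
abbrev AbsGal : Type := QBar ≃ₐ[ℚ] QBar

/-- The decomposition group of the prime of `ℚ̄` above `l` given by the embedding `ι` of `ℚ̄`. -/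
def Dec {l : ℕ} [Fact l.Prime] (ι : QBar →ₐ[ℚ] PadicAlgCl l) : Set AbsGal :=
  {σ | ∃ τ : PadicAlgCl l ≃ₐ[ℚ_[l]] PadicAlgCl l, ∀ x, τ (ι x) = ι (σ x)}

/-- Its inertia group: the automorphisms which are trivial on the residue field. -/
def Inr {l : ℕ} [Fact l.Prime] (ι : QBar →ₐ[ℚ] PadicAlgCl l) : Set AbsGal :=
  {σ | ∃ τ : PadicAlgCl l ≃ₐ[ℚ_[l]] PadicAlgCl l, (∀ x, τ (ι x) = ι (σ x)) ∧
    ∀ z : PadicAlgCl l, ‖z‖ ≤ 1 → ‖τ z - z‖ < 1}

/-- The odd prime `p` is regular: it does not divide the class number of `ℚ(ζ_p)`. -/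
def Regular (p : ℕ) [Fact p.Prime] : Prop :=
  p ≠ 2 ∧ (NumberField.classNumber (CyclotomicField p ℚ)).Coprime p

/-- The prime number `q` is a primitive root modulo `p ^ 2`. -/
def PrimitiveRoot (p q : ℕ) : Prop :=
  q.Prime ∧ orderOf (q : ZMod (p ^ 2)) = p * (p - 1)

/-- The representation `ρ` is continuous and residually unipotent on the absolute Galois group of
`ℚ(ζ_p)`. -/
structure Admissible (p : ℕ) {A : Type} [CommRing A] [IsLocalRing A] [TopologicalSpace A]
    (ρ : AbsGal →* GL (Fin 2) A) : Prop where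
  cont : ∀ i j, Continuous fun σ => (ρ σ : Matrix (Fin 2) (Fin 2) A) i j
  unipotent : ∀ σ : AbsGal, (∀ z : QBar, z ^ p = 1 → σ z = z) → ∃ m : ℕ, ∀ i j,
    (((ρ σ : Matrix (Fin 2) (Fin 2) A) - 1) ^ m) i j ∈ maximalIdeal A

/-- The representation `ρ` is unramified outside `p` and `q`. -/
def UnramifiedOutside (p q : ℕ) {A : Type} [CommRing A] (ρ : AbsGal →* GL (Fin 2) A) : Prop :=
  ∀ (l : ℕ) [Fact l.Prime] (ι : QBar →ₐ[ℚ] PadicAlgCl l), l ≠ p → l ≠ q →
    ∀ σ ∈ (Inr ι : Set AbsGal), ρ σ = 1

/-- The action of `σ` on `V = F ^ 2`. -/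
noncomputable def act {A : Type} [CommRing A] (F : Type) [Field F] [Algebra A F]
    (ρ : AbsGal →* GL (Fin 2) A) (σ : AbsGal) (v : Fin 2 → F) : Fin 2 → F :=
  ((ρ σ : Matrix (Fin 2) (Fin 2) A).map (algebraMap A F)) *ᵥ v

/-- `V` is irreducible. -/
def Irreducible {A : Type} [CommRing A] (F : Type) [Field F] [Algebra A F]
    (ρ : AbsGal →* GL (Fin 2) A) : Prop :=
  ∀ W : Submodule F (Fin 2 → F), (∀ σ, ∀ w ∈ W, act F ρ σ w ∈ W) → W = ⊥ ∨ W = ⊤

/-- `V` is potentially reducible on `D`: a line of `V` is stable under a subgroup `D'`, finitely many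
left cosets of which cover `D`. -/
def PotentiallyReducibleOn {A : Type} [CommRing A] (F : Type) [Field F] [Algebra A F]
    (ρ : AbsGal →* GL (Fin 2) A) (D : Set AbsGal) : Prop :=
  ∃ (D' : Subgroup AbsGal) (R : Set AbsGal) (v : Fin 2 → F), R.Finite ∧
    (∀ δ ∈ D, ∃ r ∈ R, r⁻¹ * δ ∈ D') ∧ v ≠ 0 ∧ ∀ δ ∈ D', ∃ c : F, act F ρ δ v = c • v

/-- The projective image is finite: an open normal subgroup acts by scalars. -/
def ProjectivelyFinite {A : Type} [CommRing A] (F : Type) [Field F] [Algebra A F]
    (ρ : AbsGal →* GL (Fin 2) A) : Prop :=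
  ∃ S : Subgroup AbsGal, S.Normal ∧ S.FiniteIndex ∧ IsOpen (S : Set AbsGal) ∧
    ∀ σ ∈ S, ∃ c : F, ∀ w, act F ρ σ w = c • w

/-- `V` is dihedral: the absolute Galois group of a quadratic field preserves a line. -/
def Dihedral {A : Type} [CommRing A] (F : Type) [Field F] [Algebra A F]
    (ρ : AbsGal →* GL (Fin 2) A) : Prop :=
  ∃ (T : Subgroup AbsGal) (v : Fin 2 → F), T.index = 2 ∧ IsOpen (T : Set AbsGal) ∧ v ≠ 0 ∧
    ∀ σ ∈ T, ∃ c : F, act F ρ σ v = c • v

/-- **Two-dimensional representations, unramified outside a regular prime `p` and a primitive root `q`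
modulo `p ^ 2`, which are reducible or potentially reducible at `p`.** -/
theorem result (p : ℕ) [Fact p.Prime] (hreg : Regular p) (q : ℕ) (hq : PrimitiveRoot p q)
    (A : Type) [CommRing A] [IsLocalRing A] [IsNoetherianRing A] [TopologicalSpace A]
    (hA : IsAdic (maximalIdeal A)) (hfin : Finite (ResidueField A)) (hpA : (p : A) ∈ maximalIdeal A)
    (F : Type) [Field F] [Algebra A F] [IsFractionRing A F]
    (ρ : AbsGal →* GL (Fin 2) A) (hρ : Admissible p ρ) (hur : UnramifiedOutside p q ρ)
    (ι : QBar →ₐ[ℚ] PadicAlgCl p) :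
    (∀ v : Fin 2 → F, v ≠ 0 → (∀ δ ∈ Dec ι, ∃ c : F, act F ρ δ v = c • v) →
      ∀ σ : AbsGal, ∃ c : F, act F ρ σ v = c • v) ∧
    (Irreducible F ρ → PotentiallyReducibleOn F ρ (Dec ι) →
      ProjectivelyFinite F ρ ∨ Dihedral F ρ) := by
  obtain ⟨hp2, hcl⟩ := hreg
  obtain ⟨hqp, hord⟩ := hq
  have hpp : p.Prime := Fact.out
  have hp3 : 2 < p := lt_of_le_of_ne hpp.two_le (Ne.symm hp2)
  have hne : NeZero ((p : ℕ) : QBar) := ⟨by exact_mod_cast hpp.ne_zero⟩
  obtain ⟨z, hz⟩ : ∃ z : QBar, IsPrimitiveRoot z p := by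
    exact HasEnoughRootsOfUnity.exists_primitiveRoot QBar p
  have hres : ∀ σ : AbsGal, σ z = z → ∃ m : ℕ, Pool.Agent.Z384.InI (maximalIdeal A)
      (((ρ σ : Matrix (Fin 2) (Fin 2) A) - 1) ^ m) := fun σ hσ => by
    refine hρ.unipotent σ fun y hy => ?_
    obtain ⟨i, _, hi⟩ := hz.eq_pow_of_pow_eq_one hy
    rw [← hi, map_pow, hσ]
  have hu : ∀ (l : ℕ) [Fact l.Prime] (ι : QBar →ₐ[ℚ] PadicAlgCl l), l ≠ p → l ≠ q →
      ∀ (σ : AbsGal) (τ : PadicAlgCl l ≃ₐ[ℚ_[l]] PadicAlgCl l), (∀ x, τ (ι x) = ι (σ x)) →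
        Pool.Agent.Y715.Nr.Inert τ → ρ σ = 1 :=
    fun l _ ι h1 h2 σ τ h3 h4 => hur l ι h1 h2 σ ⟨τ, h3, h4⟩
  refine ⟨fun v hv hD σ => ?_, fun hirr h => ?_⟩
  · exact Pool.Agent.J6H32.RP.lineP hz hp3 hcl hqp hord hA hfin hpA hρ.cont hres hu ι hv
      (fun δ hδ => hD δ hδ) σ
  · obtain ⟨D', R, v, hRf, hR, hv, hD'⟩ := h
    rcases Pool.Agent.J6H32.RP.plineP hz hp3 hcl hqp hord hA hfin hpA hρ.cont hres hu ι hRf hR hirr
      hv hD' with h | h
    · exact Or.inl h
    · obtain ⟨T, h3, h4, h5⟩ := h
      exact Or.inr ⟨T, v, h3, h4, hv, h5⟩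

end Pool.Agent.Results.MP_b583a4_nt.RegularPrimes
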