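import Mathlib
import Pool.Agent.J6H32.SQ

/-!
# The two-dimensional Fontaine–Mazur conjecture over `ℚ` for `p = 2` and representations which become
# unramified outside `2` over an imaginary quadratic field in which `2` splits

Let `K = ℚ(√-d)`, where `d` is a prime number that is `7` modulo `16`, or the product of a prime
number that is `5` modulo `8` and of a prime number that is `3` modulo `8` (for example
`d = 7, 15, 23, 55, 39, 71`); the prime `2` splits in `K`. Let `V` be a continuous irreducible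
two-dimensional representation of the absolute Galois group of `ℚ`, over a finite extension `E` of
`ℚ_2` (or the fraction field of a Noetherian local domain with finite residue field of characteristic
`2`), which is residually unipotent and whose restriction to `G_K` is unramified outside `2`. There is
no condition on the parity of `V`.

Theorem: let `D` be a decomposition group at `2`.

* A line of `V` which is stable under `D` is stable under `G_K`. So, if `V` is reducible on `D` (for
example, if `V` is ordinary at `2`), then `V` is induced from a character of `G_K`.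
* If `V` is only potentially reducible on `D`, then `V` is induced from a character of the absolute
Galois group of a quadratic field, or the projective image of `V` is finite.

If `V` is moreover potentially semi-stable at `2` with distinct Hodge–Tate weights, then the
projective image is not finite, and `V` is a twist of the representation of a cusp form with complex
multiplication: the conjecture is true for these `V`. (This deduction from classical results is not
part of the formal proof.)
-/

set_option autoImplicit false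

namespace Pool.Agent.Results.MP_b583a4_nt.SplitQuadratic

open Matrix IsLocalRing

/-- An algebraic closure of `ℚ`. -/
abbrev QBar : Type := AlgebraicClosure ℚ

/-- The absolute Galois group of `ℚ`, with its Krull topology. -/
abbrev AbsGal : Type := QBar ≃ₐ[ℚ] QBar

/-- The decomposition group of the prime of `ℚ̄` above `p` given by the embedding `ι` of `ℚ̄`. -/
def Dec {p : ℕ} [Fact p.Prime] (ι : QBar →ₐ[ℚ] PadicAlgCl p) : Set AbsGal :=
  {σ | ∃ τ : PadicAlgCl p ≃ₐ[ℚ_[p]] PadicAlgCl p, ∀ x, τ (ι x) = ι (σ x)}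

/-- Its inertia group: the automorphisms which are trivial on the residue field. -/
def Inr {p : ℕ} [Fact p.Prime] (ι : QBar →ₐ[ℚ] PadicAlgCl p) : Set AbsGal :=
  {σ | ∃ τ : PadicAlgCl p ≃ₐ[ℚ_[p]] PadicAlgCl p, (∀ x, τ (ι x) = ι (σ x)) ∧
    ∀ z : PadicAlgCl p, ‖z‖ ≤ 1 → ‖τ z - z‖ < 1}

/-- The class of the numbers `d`: the primes `7 mod 16`, and the products of a prime `5 mod 8` and of
a prime `3 mod 8`. -/
def InClass (d : ℕ) : Prop :=
  (d.Prime ∧ d % 16 = 7) ∨ ∃ p q : ℕ, p.Prime ∧ q.Prime ∧ p % 8 = 5 ∧ q % 8 = 3 ∧ d = p * q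

/-- The representation `ρ` is continuous and residually unipotent. -/
structure Admissible {A : Type} [CommRing A] [IsLocalRing A] [TopologicalSpace A]
    (ρ : AbsGal →* GL (Fin 2) A) : Prop where
  cont : ∀ i j, Continuous fun σ => (ρ σ : Matrix (Fin 2) (Fin 2) A) i j
  unipotent : ∀ σ, ∃ m : ℕ, ∀ i j,
    (((ρ σ : Matrix (Fin 2) (Fin 2) A) - 1) ^ m) i j ∈ maximalIdeal A

/-- The restriction of `ρ` to the absolute Galois group of `ℚ(s)` is unramified outside `2`. (At the
prime numbers which ramify in `ℚ(s)` the representation may be ramified over `ℚ`.) -/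
def UnramifiedOver {A : Type} [CommRing A] (s : QBar) (ρ : AbsGal →* GL (Fin 2) A) : Prop :=
  ∀ (p : ℕ) [Fact p.Prime] (ι : QBar →ₐ[ℚ] PadicAlgCl p), p ≠ 2 →
    ∀ σ ∈ (Inr ι : Set AbsGal), σ s = s → ρ σ = 1

/-- The action of `σ` on `V = F ^ 2`. -/
noncomputable def act {A : Type} [CommRing A] (F : Type) [Field F] [Algebra A F]
    (ρ : AbsGal →* GL (Fin 2) A) (σ : AbsGal) (v : Fin 2 → F) : Fin 2 → F :=
  ((ρ σ : Matrix (Fin 2) (Fin 2) A).map (algebraMap A F)) *ᵥ v

/-- `V` is irreducible. -/
def Irreducible {A : Type} [CommRing A] (F : Type) [Field F] [Algebra A F]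
    (ρ : AbsGal →* GL (Fin 2) A) : Prop :=
  ∀ W : Submodule F (Fin 2 → F), (∀ σ, ∀ w ∈ W, act F ρ σ w ∈ W) → W = ⊥ ∨ W = ⊤

/-- `V` is potentially reducible on `D`: a line of `V` is stable under a subgroup `D'`, finitely many
left cosets of which cover `D`. -/
def PotentiallyReducibleOn {A : Type} [CommRing A] (F : Type) [Field F] [Algebra A F]
    (ρ : AbsGal →* GL (Fin 2) A) (D : Set AbsGal) : Prop :=
  ∃ (D' : Subgroup AbsGal) (R : Set AbsGal) (v : Fin 2 → F), R.Finite ∧
    (∀ δ ∈ D, ∃ r ∈ R, r⁻¹ * δ ∈ D') ∧ v ≠ 0 ∧ ∀ δ ∈ D', ∃ c : F, act F ρ δ v = c • v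

/-- The projective image is finite: an open normal subgroup acts by scalars. -/
def ProjectivelyFinite {A : Type} [CommRing A] (F : Type) [Field F] [Algebra A F]
    (ρ : AbsGal →* GL (Fin 2) A) : Prop :=
  ∃ S : Subgroup AbsGal, S.Normal ∧ S.FiniteIndex ∧ IsOpen (S : Set AbsGal) ∧
    ∀ σ ∈ S, ∃ c : F, ∀ w, act F ρ σ w = c • w

/-- `V` is dihedral: the absolute Galois group of a quadratic field preserves a line. -/
def Dihedral {A : Type} [CommRing A] (F : Type) [Field F] [Algebra A F]
    (ρ : AbsGal →* GL (Fin 2) A) : Prop :=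
  ∃ (T : Subgroup AbsGal) (v : Fin 2 → F), T.index = 2 ∧ IsOpen (T : Set AbsGal) ∧ v ≠ 0 ∧
    ∀ σ ∈ T, ∃ c : F, act F ρ σ v = c • v

/-- **Irreducible two-dimensional representations which are unramified outside `2` over `ℚ(√-d)` and
reducible or potentially reducible at `2`.** -/
theorem result (d : ℕ) (hd : InClass d) (s : QBar) (hs : s ^ 2 = -(d : QBar))
    (A : Type) [CommRing A] [IsLocalRing A] [IsNoetherianRing A] [TopologicalSpace A]
    (hA : IsAdic (maximalIdeal A)) (hfin : Finite (ResidueField A)) (h2 : (2 : A) ∈ maximalIdeal A)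
    (F : Type) [Field F] [Algebra A F] [IsFractionRing A F]
    (ρ : AbsGal →* GL (Fin 2) A) (hρ : Admissible ρ) (hur : UnramifiedOver s ρ)
    (hirr : Irreducible F ρ) (ι : QBar →ₐ[ℚ] PadicAlgCl 2) :
    (∀ v : Fin 2 → F, v ≠ 0 → (∀ δ ∈ Dec ι, ∃ c : F, act F ρ δ v = c • v) →
      ∀ σ : AbsGal, σ s = s → ∃ c : F, act F ρ σ v = c • v) ∧
    (PotentiallyReducibleOn F ρ (Dec ι) → ProjectivelyFinite F ρ ∨ Dihedral F ρ) := by
  have hu : ∀ (p : ℕ) [Fact p.Prime] (ι : QBar →ₐ[ℚ] PadicAlgCl p), p ≠ 2 →
      ∀ (σ : AbsGal) (τ : PadicAlgCl p ≃ₐ[ℚ_[p]] PadicAlgCl p), (∀ x, τ (ι x) = ι (σ x)) →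
        Pool.Agent.Y715.Nr.Inert τ → σ s = s → ρ σ = 1 :=
    fun p _ ι hp σ τ h1 h2 h3 => hur p ι hp σ ⟨τ, h1, h2⟩ h3
  refine ⟨fun v hv hD σ hσ => ?_, fun h => ?_⟩
  · exact Pool.Agent.J6H32.SQ.line hs hd hA hfin h2 hρ.cont hρ.unipotent hu ι hv
      (fun δ hδ => hD δ hδ) hσ
  · obtain ⟨D', R, v, hRf, hR, hv, hD'⟩ := h
    rcases Pool.Agent.J6H32.SQ.pline hs hd hA hfin h2 hρ.cont hρ.unipotent hu ι hRf hR hirr hv hD'
      with h | h
    · exact Or.inl h
    · obtain ⟨T, h3, h4, h5⟩ := h
      exact Or.inr ⟨T, v, h3, h4, hv, h5⟩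

end Pool.Agent.Results.MP_b583a4_nt.SplitQuadratic
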